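import Mathlib

set_option autoImplicit false

/-!
# A regular self 2-distance graph of odd degree

The graph of the icosahedron is connected and 5-regular on 12 vertices, and its 2-distance graph is
again (isomorphic to) the graph of the icosahedron. So the degree of a regular self 2-distance graph
may be odd.
-/

namespace Pool.Agent.Results.MP_325f40_co.Icosahedron

/-- The 2-distance graph of `G`: two vertices are adjacent when their distance in `G` is exactly `2`
(vertices in different components have `SimpleGraph.dist` equal to `0` and are not adjacent). -/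
def twoDistance {V : Type} (G : SimpleGraph V) : SimpleGraph V where
  Adj u v := G.dist u v = 2
  symm := ⟨fun u v h => by rw [SimpleGraph.dist_comm]; exact h⟩
  loopless := ⟨fun v h => by simp at h⟩

/-- `G` is a self 2-distance graph: it is isomorphic to its 2-distance graph. -/
def IsSelfTwoDistance {V : Type} (G : SimpleGraph V) : Prop := Nonempty (twoDistance G ≃g G)

/-- `G` is `k`-regular. -/
def IsRegular {V : Type} (G : SimpleGraph V) (k : ℕ) : Prop := ∀ v, (G.neighborSet v).ncard = k

theorem dist_two_iff {V : Type} (G : SimpleGraph V) (u v : V) :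
    G.dist u v = 2 ↔ u ≠ v ∧ ¬ G.Adj u v ∧ ∃ w, G.Adj u w ∧ G.Adj w v := by
  constructor
  · intro h
    have hne : u ≠ v := by rintro rfl; simp at h
    have hr : G.Reachable u v := by
      by_contra hr
      rw [SimpleGraph.dist_eq_zero_of_not_reachable hr] at h
      omega
    refine ⟨hne, fun ha => ?_, ?_⟩
    · have := SimpleGraph.dist_eq_one_iff_adj.2 ha
      omega
    · obtain ⟨p, hp⟩ := hr.exists_walk_length_eq_dist
      rw [h] at hp
      cases p with
      | nil => simp at hp
      | cons a q =>
        cases q with
        | nil => simp at hp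
        | cons b r =>
          cases r with
          | nil => exact ⟨_, a, b⟩
          | cons c s => simp at hp
  · rintro ⟨hne, hna, w, h1, h2⟩
    have hle : G.dist u v ≤ 2 := by
      have := SimpleGraph.dist_le (SimpleGraph.Walk.cons h1 (SimpleGraph.Walk.cons h2 SimpleGraph.Walk.nil))
      simpa using this
    have hr : G.Reachable u v := ⟨SimpleGraph.Walk.cons h1 (SimpleGraph.Walk.cons h2 SimpleGraph.Walk.nil)⟩
    have h0 : G.dist u v ≠ 0 := by
      intro h0
      exact hne (hr.dist_eq_zero_iff.1 h0)
    have h1' : G.dist u v ≠ 1 := by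
      intro h1'
      exact hna (SimpleGraph.dist_eq_one_iff_adj.1 h1')
    omega

/-- The rows of the adjacency matrix of the icosahedron graph, as bit masks. -/
def row : Fin 12 → ℕ := ![62, 229, 395, 789, 1577, 1107, 3234, 2374, 2700, 3352, 2672, 1984]

/-- The graph of the icosahedron. -/
def ico : SimpleGraph (Fin 12) where
  Adj u v := (row u).testBit v = true
  symm := ⟨by decide +kernel⟩
  loopless := ⟨by decide +kernel⟩

instance : DecidableRel ico.Adj := fun u v => inferInstanceAs (Decidable ((row u).testBit v = true))

/-- The isomorphism of the 2-distance graph of `ico` with `ico`. -/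
def f : Fin 12 → Fin 12 := ![0, 6, 8, 10, 7, 9, 2, 4, 1, 3, 5, 11]

/-- The inverse of `f`. -/
def g : Fin 12 → Fin 12 := ![0, 8, 6, 9, 7, 10, 1, 4, 2, 5, 3, 11]

theorem f_spec : ∀ u v : Fin 12, ico.Adj (f u) (f v) ↔
    (u ≠ v ∧ ¬ ico.Adj u v ∧ ∃ w, ico.Adj u w ∧ ico.Adj w v) := by decide +kernel

theorem degree_five : ∀ v : Fin 12, (Finset.univ.filter fun w => ico.Adj v w).card = 5 := by
  decide +kernel

theorem reach : ∀ v : Fin 12, ico.Adj 0 v ∨ v = 0 ∨ (∃ w, ico.Adj 0 w ∧ ico.Adj w v) ∨
    ∃ w x, ico.Adj 0 w ∧ ico.Adj w x ∧ ico.Adj x v := by decide +kernel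

/-- There is an odd `k` and a finite connected `k`-regular graph which is isomorphic to its
2-distance graph: the graph of the icosahedron (`k = 5`). -/
theorem result : ∃ (k : ℕ) (V : Type) (_ : Finite V) (G : SimpleGraph V),
    Odd k ∧ G.Connected ∧ IsRegular G k ∧ IsSelfTwoDistance G := by
  refine ⟨5, Fin 12, inferInstance, ico, by decide, ?_, ?_, ?_⟩
  · have h0 : ∀ v, ico.Reachable 0 v := by
      intro v
      rcases reach v with h | h | ⟨w, h1, h2⟩ | ⟨w, x, h1, h2, h3⟩
      · exact h.reachable
      · rw [h]
      · exact h1.reachable.trans h2.reachable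
      · exact (h1.reachable.trans h2.reachable).trans h3.reachable
    have : Nonempty (Fin 12) := ⟨0⟩
    exact SimpleGraph.Connected.mk (fun u v => (h0 u).symm.trans (h0 v))
  · intro v
    have : (ico.neighborSet v) = ↑(Finset.univ.filter fun w => ico.Adj v w) := by
      ext w; simp
    rw [this, Set.ncard_coe_finset]
    exact degree_five v
  · refine ⟨⟨⟨f, g, ?_, ?_⟩, ?_⟩⟩
    · have : ∀ x, g (f x) = x := by decide +kernel
      exact this
    · have : ∀ x, f (g x) = x := by decide +kernel
      exact this
    · intro u v
      exact (f_spec u v).trans (dist_two_iff ico u v).symm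

end Pool.Agent.Results.MP_325f40_co.Icosahedron
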